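import Pool.Agent.P.MP_0f3a14_an.Main

namespace Pool.Agent.Results.MP_0f3a14_an.ExtremeDelta

open Pool.Agent.P.MP_0f3a14_an

/-- Over the real and over the complex field there is a Banach space with an extreme point of the
unit ball that is a Delta-point but neither a ccs Delta-point nor a super Delta-point. -/
theorem result (𝕜 : Type) [RCLike 𝕜] :
    ∃ (X : Type) (_ : NormedAddCommGroup X) (_ : NormedSpace 𝕜 X) (_ : CompleteSpace X) (x : X),
      IsExtremeBall 𝕜 x ∧ IsDelta 𝕜 x ∧ ¬ IsCCSDelta 𝕜 x ∧ ¬ IsSuperDelta 𝕜 x :=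
  ⟨XX 𝕜, inferInstance, inferInstance, inferInstance, T (x0 𝕜), extreme, delta, not_ccs, not_super⟩

end Pool.Agent.Results.MP_0f3a14_an.ExtremeDelta
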